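import Mathlib

set_option autoImplicit false

namespace Pool.Agent.Results.MP_be9f3f_co.Cayley

open SimpleGraph

/-- the reflexive edge relation: every vertex carries a loop -/
def E {V : Type} (G : SimpleGraph V) (a b : V) : Prop := a = b ∨ G.Adj a b

/-- `S` cannot be split into two nonempty parts with no edge (loops included) between them -/
def Conn {V : Type} (G : SimpleGraph V) (S : Set V) : Prop :=
  ¬ ∃ P Q : Set V, P.Nonempty ∧ Q.Nonempty ∧ P ∪ Q = S ∧ ∀ a ∈ P, ∀ b ∈ Q, ¬ E G a b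

/-- a component of `S`: a maximal connected subset of `S` -/
def Comp {V : Type} (G : SimpleGraph V) (S C : Set V) : Prop := Maximal (fun D => D ⊆ S ∧ Conn G D) C

/-- a homomorphism that is onto on vertices and on edges -/
def Epi {V W : Type} (G : SimpleGraph V) (H : SimpleGraph W) (f : V → W) : Prop :=
  (∀ a b, E G a b → E H (f a) (f b)) ∧ Function.Surjective f ∧
    ∀ x y, E H x y → ∃ a b, E G a b ∧ f a = x ∧ f b = y

/-- confluent map -/
def Confluent {V W : Type} (G : SimpleGraph V) (H : SimpleGraph W) (f : V → W) : Prop :=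
  ∀ Q, Conn H Q → ∀ C, Comp G (f ⁻¹' Q) C → f '' C = Q

/-- vertex-transitive -/
def Homogeneous {V : Type} (G : SimpleGraph V) : Prop := ∀ x y, ∃ φ : G ≃g G, φ x = y

lemma E.symm {V : Type} {G : SimpleGraph V} {a b : V} (h : E G a b) : E G b a :=
  h.imp Eq.symm Adj.symm

lemma conn_single {V : Type} (G : SimpleGraph V) (a : V) : Conn G {a} := by
  rintro ⟨P, Q, ⟨x, hx⟩, ⟨y, hy⟩, e, h⟩
  have h1 : x = a := (e ▸ Set.mem_union_left Q hx : x ∈ ({a} : Set V))
  have h2 : y = a := (e ▸ Set.mem_union_right P hy : y ∈ ({a} : Set V))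
  exact h x hx y hy (.inl (h1.trans h2.symm))

lemma conn_insert {V : Type} (G : SimpleGraph V) (C : Set V) (h : Conn G C) (a b : V) (ha : a ∈ C)
    (e : E G a b) : Conn G (insert b C) := by
  by_cases hb : b ∈ C
  · rwa [Set.insert_eq_of_mem hb]
  have key : ∀ P Q : Set V, Q.Nonempty → P ∪ Q = insert b C → (∀ x ∈ P, ∀ y ∈ Q, ¬ E G x y) →
      b ∈ P → False := by
    intro P Q hQ u n hP
    have a1 : a ∈ P := (u ▸ Set.mem_insert_of_mem b ha : a ∈ P ∪ Q).resolve_right fun k => n b hP a k e.symm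
    have b1 : b ∉ Q := fun k => n b hP b k (.inl rfl)
    refine h ⟨P \ {b}, Q, ⟨a, a1, fun k => hb (k ▸ ha)⟩, hQ, ?_, fun x hx => n x hx.1⟩
    rw [← Set.insert_diff_self_of_notMem hb, ← u, Set.union_diff_distrib, Set.diff_singleton_eq_self b1]
  rintro ⟨P, Q, hP, hQ, u, n⟩
  rcases (u ▸ Set.mem_insert b C : b ∈ P ∪ Q) with k | k
  · exact key P Q hQ u n k
  · exact key Q P hP (Set.union_comm _ _ ▸ u) (fun x hx y hy e => n y hy x hx e.symm) k

lemma open_conf {V W : Type} (G : SimpleGraph V) (H : SimpleGraph W) (f : V → W)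
    (hs : Function.Surjective f) (h : ∀ a y, E H (f a) y → ∃ b, E G a b ∧ f b = y) :
    Confluent G H f := by
  intro Q hQ C hC
  have sub : f '' C ⊆ Q := by rintro _ ⟨a, ha, rfl⟩; exact hC.1.1 ha
  by_contra ne
  obtain ⟨y, hy, hy'⟩ : ∃ y ∈ Q, y ∉ f '' C := by
    by_contra k; exact ne (sub.antisymm fun y hy => by_contra fun q => k ⟨y, hy, q⟩)
  refine hQ ⟨f '' C, Q \ f '' C, ?_, ⟨y, hy, hy'⟩, Set.union_diff_cancel sub, ?_⟩
  · obtain ⟨a, rfl⟩ := hs y
    rcases C.eq_empty_or_nonempty with rfl | k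
    · exact absurd (hC.2 ⟨Set.singleton_subset_iff.2 hy, conn_single G a⟩ (Set.empty_subset _) rfl) id
    · exact k.image f
  · rintro _ ⟨a, ha, rfl⟩ z hz e
    obtain ⟨b, b1, rfl⟩ := h a z e
    exact hz.2 ⟨b, hC.2 ⟨Set.insert_subset hz.1 hC.1.1, conn_insert G C hC.1.2 a b ha b1⟩
      (Set.subset_insert _ _) (Set.mem_insert _ _), rfl⟩

theorem result {W : Type} [Finite W] [Nonempty W] (H : SimpleGraph W) (hH : Conn H Set.univ) :
    ∃ (V : Type) (_ : Finite V) (_ : Nonempty V) (G : SimpleGraph V) (f : V → W),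
      Conn G Set.univ ∧ Homogeneous G ∧ Epi G H f ∧ Confluent G H f := by
  classical
  obtain ⟨x⟩ := ‹Nonempty W›
  let S : Set (Equiv.Perm W) := {s | ∃ u v, H.Adj u v ∧ s = Equiv.swap u v}
  let Γ := Subgroup.closure S
  let G : SimpleGraph Γ := fromRel fun g h => h.1 * g.1⁻¹ ∈ S
  let f : Γ → W := fun g => g.1 x
  have step : ∀ (g : Γ) (s) (hs : s ∈ S), E G g (⟨s, Subgroup.subset_closure hs⟩ * g) := fun g s hs => by
    by_cases k : g = ⟨s, Subgroup.subset_closure hs⟩ * g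
    · exact .inl k
    · exact .inr ⟨k, .inl (by simpa using hs)⟩
  have op : ∀ a y, E H (f a) y → ∃ b, E G a b ∧ f b = y := by
    rintro a y (rfl | e)
    · exact ⟨a, .inl rfl, rfl⟩
    · exact ⟨_, step a _ ⟨_, _, e, rfl⟩, by simp [f]⟩
  have sur : Function.Surjective f := fun y => by
    by_contra k
    refine hH ⟨Set.range f, (Set.range f)ᶜ, ⟨_, 1, rfl⟩, ⟨y, k⟩, Set.union_compl_self _, ?_⟩
    rintro _ ⟨a, rfl⟩ z hz e
    obtain ⟨b, -, rfl⟩ := op a z e
    exact hz ⟨b, rfl⟩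
  have hom : ∀ a b : Γ, b.1 * a.1⁻¹ ∈ S → E H (f a) (f b) := by
    rintro a b ⟨u, v, e, k⟩
    have : f b = Equiv.swap u v (f a) := by simp [f, ← k]
    rw [this, Equiv.swap_apply_def]
    split_ifs with h1 h2
    exacts [.inr (h1 ▸ e), .inr (h2 ▸ e.symm), .inl rfl]
  refine ⟨Γ, inferInstance, inferInstance, G, f, ?_, fun a b => ?_, ⟨?_, sur, fun y z e => ?_⟩,
    open_conf G H f sur op⟩
  · have key : ∀ P Q : Set Γ, Q.Nonempty → P ∪ Q = Set.univ → (∀ a ∈ P, ∀ b ∈ Q, ¬ E G a b) →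
        1 ∈ P → False := by
      rintro P Q ⟨⟨q, hq⟩, hQ⟩ u n h1
      have cl : ∀ a ∈ P, ∀ b, E G a b → b ∈ P := fun a ha b e =>
        (u ▸ Set.mem_univ b : b ∈ P ∪ Q).resolve_right fun k => n a ha b k e
      have : ∀ q hq, (⟨q, hq⟩ : Γ) ∈ P := by
        intro q hq
        induction hq using Subgroup.closure_induction_left with
        | one => exact h1
        | mul_left s hs y hy ih => exact cl _ ih _ (step ⟨y, hy⟩ s hs)
        | inv_mul_cancel s hs y hy ih =>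
          obtain ⟨u, v, e, rfl⟩ := hs
          simpa using cl _ ih _ (step ⟨y, hy⟩ _ ⟨u, v, e, rfl⟩)
      exact n _ (this q hq) _ hQ (.inl rfl)
    rintro ⟨P, Q, hP, hQ, u, n⟩
    rcases (u ▸ Set.mem_univ 1 : (1 : Γ) ∈ P ∪ Q) with k | k
    · exact key P Q hQ u n k
    · exact key Q P hP (Set.union_comm _ _ ▸ u) (fun x hx y hy e => n y hy x hx e.symm) k
  · exact ⟨⟨Equiv.mulRight (a⁻¹ * b), by simp [G, mul_assoc]⟩, by simp⟩
  · rintro a b (rfl | ⟨-, e | e⟩)
    exacts [.inl rfl, hom a b e, (hom b a e).symm]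
  · obtain ⟨a, rfl⟩ := sur y
    obtain ⟨b, b1, b2⟩ := op a z e
    exact ⟨a, b, b1, rfl, b2⟩

end Pool.Agent.Results.MP_be9f3f_co.Cayley
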